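import Pool.Agent.Helper71.PR.Goals

/-!
# Uniqueness of the LU decomposition
-/

set_option autoImplicit false

namespace Pool.Agent.Helper56.PR

open Matrix Pool.Agent.Helper71.PR

lemma uppU_bt {n : ℕ} {u : Mt n} (h : UppU u) : BlockTriangular u id := fun i j hij => h.2 i j hij

lemma lowT_bt {n : ℕ} {l : Mt n} (h : LowT l) : BlockTriangular l OrderDual.toDual :=
  fun i j hij => h i j (OrderDual.toDual_lt_toDual.1 hij)

lemma uppU_det {n : ℕ} {u : Mt n} (h : UppU u) : u.det = 1 := by
  rw [Matrix.det_of_isUpperTriangular (uppU_bt h)]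
  exact Finset.prod_eq_one fun i _ => h.1 i

theorem uni : Pool.Agent.Helper71.PR.G_UNI := by
  intro n l l' u u' hl hl' hdl hdl' hu hu' h
  have hu1 : IsUnit u.det := by rw [uppU_det hu]; exact isUnit_one
  have hl1 : IsUnit l'.det := isUnit_iff_ne_zero.2 hdl'
  obtain ⟨iu⟩ : Nonempty (Invertible u) := (Matrix.isUnit_iff_isUnit_det u).2 hu1 |>.nonempty_invertible
  obtain ⟨il⟩ : Nonempty (Invertible l') := (Matrix.isUnit_iff_isUnit_det l').2 hl1 |>.nonempty_invertible
  have e1 : l'⁻¹ * l * u = u' := by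
    rw [Matrix.mul_assoc, h, ← Matrix.mul_assoc, Matrix.nonsing_inv_mul _ hl1, Matrix.one_mul]
  have e2 : l'⁻¹ * l = u' * u⁻¹ := by
    rw [← e1, Matrix.mul_assoc, Matrix.mul_nonsing_inv _ hu1, Matrix.mul_one]
  have h1 : BlockTriangular (l'⁻¹ * l) OrderDual.toDual :=
    (Matrix.blockTriangular_inv_of_blockTriangular (lowT_bt hl')).mul (lowT_bt hl)
  have h2 : BlockTriangular (l'⁻¹ * l) id := by
    rw [e2]
    exact (uppU_bt hu').mul (Matrix.blockTriangular_inv_of_blockTriangular (uppU_bt hu))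
  set M := l'⁻¹ * l with hM
  have hoff : ∀ i j, i ≠ j → M i j = 0 := by
    intro i j hij
    rcases lt_or_gt_of_ne hij with hlt | hlt
    · exact h1 (OrderDual.toDual_lt_toDual.2 hlt)
    · exact h2 hlt
  have hmul : ∀ i j, u' i j = M i i * u i j := by
    intro i j
    rw [← e1, Matrix.mul_apply]
    rw [Finset.sum_eq_single i]
    · intro b _ hb
      rw [hoff i b (Ne.symm hb), zero_mul]
    · intro hi
      exact absurd (Finset.mem_univ i) hi
  have hd : ∀ i, M i i = 1 := by
    intro i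
    have := hmul i i
    rw [hu'.1 i, hu.1 i, mul_one] at this
    exact this.symm
  ext i j
  rw [hmul i j, hd i, one_mul]

end Pool.Agent.Helper56.PR
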